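import Pool.Agent.Q19.JL.Fin2
import Pool.Agent.Q19.SU.Fm

/-!
# MP_f5d5f4_nt: division fields of prime level of the curves of almost all invariants, all heights

Let `K` be a number field of degree `d` (the problem: `K = ℚ`). The invariants `j ≠ 0, 1728` in `K`,
of ALL heights, are ordered by the product `radical j` of the norms of the primes (not dividing six) at
which `j` reduces to `0`, `1728` or `∞`; there are `X ^ (2 / 3 + o(1))` with `radical j ≤ X`. For every
`η > 0` all but a proportion `X ^ (-ν)` of them have the following property. Let `E` be ANY elliptic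
curve over `K` of invariant `j` (all twists), `E'` ANY elliptic curve over `K` and `p ≥ 13` ANY prime
with `p ^ 2 > 8 d + 1` (over `ℚ`: any prime `p ≥ 13`). If `K(E[p]) = K(E'[p])`, in particular if `E` and
`E'` are `p`-congruent, the product of the norms of the primes (not dividing six) of potentially
multiplicative reduction of `E'` is at least `H(j) ^ (1 - η)`, `H` the height; in particular
`H(j(E')) ≥ H(j) ^ (1 - η)`.

So for almost all invariants `j` of all heights no curve of invariant `j` is `p`-congruent to a curve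
with smaller invariant, for all primes `p ≥ 13` at once.

Proof. For almost all invariants `j` of all heights almost all of the height of `j` comes from simple
poles (engine `Pool.Agent.Q19.JL`). If `v` is a simple pole, the invariant of `E'` has a pole at `v`,
since otherwise `p ∣ v(j) = -1` by the theorem `FM.loc` of helper673 (also for `v ∣ p`).
-/

set_option autoImplicit false

open NumberField IsDedekindDomain
open scoped Classical

namespace Pool.Agent.Results.MP_f5d5f4_nt.AllInvariantsDivisionFields

/-- The curve `y² = x³ + Ax + B` over `K`. -/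
def curve {K : Type} [Field K] (A B : K) : WeierstrassCurve K := ⟨0, 0, 0, A, B⟩

/-- The group of its points over the algebraic closure of `K`. -/
abbrev Points {K : Type} [Field K] (A B : K) : Type :=
  ((curve A B).baseChange (AlgebraicClosure K)).toAffine.Point

/-- The action of an automorphism `σ` of the algebraic closure over `K` on the points. -/
noncomputable def galois {K : Type} [Field K] (A B : K)
    (σ : AlgebraicClosure K ≃ₐ[K] AlgebraicClosure K) : Points A B →+ Points A B :=
  WeierstrassCurve.Affine.Point.map (σ : AlgebraicClosure K →ₐ[K] AlgebraicClosure K)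

/-- The fields generated by the points killed by `p` of the two curves are the same: they are fixed
by the same automorphisms. -/
def SameDivisionField {K : Type} [Field K] (p : ℕ) (A B A' B' : K) : Prop :=
  ∀ σ : AlgebraicClosure K ≃ₐ[K] AlgebraicClosure K,
    (∀ P : Points A B, p • P = 0 → galois A B σ P = P) ↔
      (∀ P : Points A' B', p • P = 0 → galois A' B' σ P = P)

/-- `p`-congruence: a bijective additive map of the points killed by `p` commutes with the Galois
group. -/
def Congruent {K : Type} [Field K] (p : ℕ) (A B A' B' : K) : Prop :=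
  ∃ f : Points A B → Points A' B', (∀ P Q, p • P = 0 → p • Q = 0 → f (P + Q) = f P + f Q) ∧
    Set.BijOn f {P | p • P = 0} {Q | p • Q = 0} ∧
    ∀ (σ : AlgebraicClosure K ≃ₐ[K] AlgebraicClosure K) (P : Points A B), p • P = 0 →
      f (galois A B σ P) = galois A' B' σ (f P)

/-- The invariant of `y² = x³ + Ax + B`. -/
noncomputable def jInvariant {K : Type} [Field K] (A B : K) : K :=
  6912 * A ^ 3 / (4 * A ^ 3 + 27 * B ^ 2)

/-- the product of the norms of the primes not dividing six at which `j` is not integral, that is, of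
potentially multiplicative reduction -/
noncomputable def poleProduct {K : Type} [Field K] [NumberField K] (j : K) : ℝ :=
  ∏ᶠ v ∈ {v : HeightOneSpectrum (𝓞 K) | ¬ v.valuation K j ≤ 1 ∧ v.valuation K 6 = 1},
    (Ideal.absNorm v.asIdeal : ℝ)

/-- the product of the norms of the primes not dividing six at which `j` reduces to `0`, `1728` or
`∞` -/
noncomputable def radical {K : Type} [Field K] [NumberField K] (j : K) : ℝ :=
  ∏ᶠ v ∈ {v : HeightOneSpectrum (𝓞 K) | v.valuation K 6 = 1 ∧
    (v.valuation K j ≠ 1 ∨ v.valuation K (j - 1728) ≠ 1)}, (Ideal.absNorm v.asIdeal : ℝ)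

/-- the invariants `j ≠ 0, 1728`, of whatever height, with `radical j ≤ X` -/
def Invariants (K : Type) [Field K] [NumberField K] (X : ℝ) : Set K :=
  {j | j ≠ 0 ∧ j ≠ 1728 ∧ radical j ≤ X}

/-- For every `E : y² = x³ + Ax + B` of invariant `j`, every prime `p ≥ 13` with
`p ^ 2 > 8 [K : ℚ] + 1` and every elliptic curve `E' : y² = x³ + A'x + B'` over `K` with the same
`p`-division field the product of the norms of the primes of potentially multiplicative reduction of
`E'` and the height of its invariant are at least `H(j) ^ (1 - η)`. -/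
def NoSmallCompanion {K : Type} [Field K] [NumberField K] (η : ℝ) (j : K) : Prop :=
  ∀ A B : K, 4 * A ^ 3 + 27 * B ^ 2 ≠ 0 → jInvariant A B = j →
    ∀ p : ℕ, p.Prime → 13 ≤ p → 8 * Module.finrank ℚ K + 1 < p ^ 2 →
      ∀ A' B' : K, 4 * A' ^ 3 + 27 * B' ^ 2 ≠ 0 → SameDivisionField p A B A' B' →
        Height.mulHeight₁ j ^ (1 - η) ≤ poleProduct (jInvariant A' B') ∧
        Height.mulHeight₁ j ^ (1 - η) ≤ Height.mulHeight₁ (jInvariant A' B')

theorem inv_eq (K : Type) [Field K] [NumberField K] (X : ℝ) :
    Invariants K X = Pool.Agent.Q19.JL.Iv K X := by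
  ext j
  constructor
  · rintro ⟨h0, h1, h2⟩
    refine ⟨h0, h1, ?_⟩
    rw [← Pool.Agent.Q19.JL.rad_eq h0 h1]
    exact h2
  · rintro ⟨h0, h1, h2⟩
    refine ⟨h0, h1, ?_⟩
    rw [← Pool.Agent.Q19.JL.rad_eq h0 h1] at h2
    exact h2

/-- **Theorem.** (1) There are `X ^ (2 / 3 + o(1))` invariants, of all heights, with
`radical j ≤ X`. (2) For every `η > 0` all but a power-saving proportion of them have the property
that the curves with the same `p`-division field for some prime `p` (`p ≥ 13`, `p ^ 2 > 8 [K : ℚ] + 1`) as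
a curve of invariant `j` have invariants of height at least `H(j) ^ (1 - η)`, and many primes of
potentially multiplicative reduction. (3) `p`-congruent curves have the same `p`-division field. -/
theorem result (K : Type) [Field K] [NumberField K] :
    (∀ δ : ℝ, 0 < δ → ∃ X₀ : ℝ, ∀ X : ℝ, X₀ ≤ X → (Invariants K X).Finite ∧
      X ^ (2 / 3 - δ) ≤ ((Invariants K X).ncard : ℝ) ∧
      ((Invariants K X).ncard : ℝ) ≤ X ^ (2 / 3 + δ)) ∧
    (∀ η : ℝ, 0 < η → ∃ ν X₀ : ℝ, 0 < ν ∧ ∀ X : ℝ, X₀ ≤ X →
      (({j | j ∈ Invariants K X ∧ ¬ NoSmallCompanion η j} : Set K).ncard : ℝ) ≤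
        X ^ (-ν) * (Invariants K X).ncard) ∧
    (∀ (p : ℕ) (A B A' B' : K), Congruent p A B A' B' → SameDivisionField p A B A' B') := by
  refine ⟨fun δ hδ => ?_, fun η hη => ?_, ?_⟩
  · obtain ⟨X1, hX1, h1⟩ := Pool.Agent.Q19.JL.Iv_upper K δ hδ
    obtain ⟨X2, hX2, h2⟩ := Pool.Agent.Q19.JL.Iv_lower K δ hδ
    refine ⟨max X1 X2, fun X hX => ?_⟩
    rw [inv_eq]
    exact ⟨Pool.Agent.Q19.JL.Iv_fin K (hX1.trans ((le_max_left _ _).trans hX)),
      h2 X ((le_max_right _ _).trans hX), h1 X ((le_max_left _ _).trans hX)⟩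
  · obtain ⟨t, ht0, ht1, ht2⟩ : ∃ t : ℝ, 0 < t ∧ t < 1 / 2 ∧ t ≤ η :=
      ⟨min η (1 / 3), lt_min hη (by norm_num), by
        linarith [min_le_right η (1 / 3 : ℝ)], min_le_left _ _⟩
    obtain ⟨ν, X₀, hν, -, h⟩ := Pool.Agent.Q19.SU.gd_prop K t 0 ht0 ht1
    refine ⟨ν, X₀, hν, fun X hX => ?_⟩
    rw [inv_eq]
    refine h X hX _ (fun j hj => hj.1) fun j hj hcon => hj.2 ?_
    intro A B hD hAB p hp h13 hpd A' B' hD' hF
    have h1 := Pool.Agent.Q19.SU.pole_ge hcon.1 hD hD' hj.1.1 hAB hp h13 hpd hF
    have h2 := Pool.Agent.Q19.SU.fin_ge (Pool.Agent.Q19.SU.pole6_finite _)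
      (by linarith : 1 - η ≤ 1 - t) h1
    exact ⟨h2, h2.trans (Pool.Agent.Q19.SU.poles_le _)⟩
  · rintro p A B A' B' ⟨f, -, f2, f3⟩
    exact Pool.Agent.Y673.FM.sameF_of f f2 f3

end Pool.Agent.Results.MP_f5d5f4_nt.AllInvariantsDivisionFields
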