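import Pool.Agent.Results.MP_f5d5f4_nt.EveryLevel
import Pool.Agent.Results.MP_f5d5f4_nt.EveryFibre
import Pool.Agent.Q319.WN.Ratio
import Pool.Agent.Q319.WN.PairW

/-!
# Frey-Mazur for ALL elliptic curves near the multiples and the dilates of almost every real one

Let `0 < δ < 1/11`. The pair `(A, B)` of integers is good if `y² = x³ + Ax + B` is an elliptic curve `E` without congruence,
modulo any `n ≥ 2`, with a curve of height at most `H(E) ^ (1 + δ)`, except twists. Let `(α, β)` be a pair of real numbers.

1. For all `(α, β)` with `|α| ≤ Y²`, `|β| ≤ Y³` outside a set of area at most `ε Y⁵` and 100% of the `n ≤ R` ALL the pairs of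
   integers within `w` of `(n² α, n³ β)` are good (`Y` large in terms of `ε` and `w`; every `R`).
2. For every sequence `v_k → ∞` and almost every `(α, β)` ALL the pairs within `w` of `(v_k² α, v_k³ β)` are good for 100% of
   the `k < K_j`, for a sequence `K_j → ∞` which does not depend on `α`, `β` and `w`.
3. If `v_k` increases fast enough then for almost every `(α, β)` and all large `k` ALL the pairs within `k` of
   `(v_k² α, v_k³ β)` are good.
4. For every integer `A ≠ 0` the same holds for the curves `y² = x³ + Ax + t`: for almost every real number `y` (with a power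
   saving in the exceptional set) and 100% of the multiples `k y`, `k ≤ N ^ θ`, ALL the `t` with `||t| - k y| ≤ w` are good,
   and similarly for the dilates `α v_k` of almost every real number `α`.

From Mathlib: `volume`: the Lebesgue measure. That 100% of the pairs are good is from the starting files `EveryLevel` and
`EveryFibre` (with the definitions of `disc`, `height`, `Congruent`, `IsTwist` and `NoCompanion`). `MultiplesVecW`,
`DilatesVecW`, `FastDilatesVecW` are defined in `Pool.Agent.Q319.WN.VecW`; `NullAtMultiples` and `NullAtDilates` in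
`Pool.Agent.Q319.WN.Null`.
-/

set_option autoImplicit false

namespace Pool.Agent.Results.MP_f5d5f4_nt.CurvesNearRealCurves

open Filter Topology Pool.Agent.Q319.WN

/-- `y² = x³ + Ax + B` is not an elliptic curve or has a congruence, modulo some `n ≥ 2`, with a curve of height at most
`H(E) ^ (1 + δ)` which is not a twist. -/
def Bad (δ : ℝ) (A B : ℤ) : Prop := ¬ (EveryLevel.disc A B ≠ 0 ∧ EveryLevel.NoCompanion δ A B)

lemma bad_null2 (δ : ℝ) (h₀ : 0 < δ) (h : 11 * δ < 1) :
    NullBoxW ![2, 3] (fun x : Fin 2 → ℤ => Bad δ (x 0) (x 1)) :=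
  null_pair (Q := fun p : ℤ × ℤ => EveryLevel.disc p.1 p.2 ≠ 0 ∧ EveryLevel.NoCompanion δ p.1 p.2) 2 3
    (EveryLevel.result δ h₀ h)

lemma bad_null1 (A : ℤ) (hA : A ≠ 0) (δ : ℝ) (h₀ : 0 < δ) (h : 11 * δ < 1) : Null (fun t : ℤ => Bad δ A t) := by
  refine null_of_sets (fun T : ℕ => {t : ℤ | |t| ≤ (T : ℤ)})
    (fun T : ℕ => {t : ℤ | |t| ≤ (T : ℤ) ∧ EveryLevel.disc A t ≠ 0 ∧ EveryLevel.NoCompanion δ A t}) ?_ ?_ ?_
    (EveryFibre.result A hA δ h₀ h)
  · exact fun _ _ ht => ht
  · exact fun _ _ ht => ht.1
  · exact fun _ _ ht hP => ⟨ht, fun h' => hP h'.2⟩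

/-- Let `0 < δ < 1/11`.
* The pairs of integers `(A, B)` for which `y² = x³ + Ax + B` is not an elliptic curve or has a congruence, modulo some
  `n ≥ 2`, with a curve of height at most `H(E) ^ (1 + δ)` which is not a twist are rare at the multiples `(n² α, n³ β)` and at
  the dilates `(v_k² α, v_k³ β)` of almost all pairs of real numbers (see `MultiplesVecW`, `DilatesVecW` and
  `FastDilatesVecW` for the precise statements).
* For every integer `A ≠ 0` the integers `t` for which `(A, t)` is such a pair are rare at the multiples and at the dilates of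
  almost all real numbers (see `NullAtMultiples` and `NullAtDilates`). -/
theorem result (δ : ℝ) (h₀ : 0 < δ) (h : 11 * δ < 1) :
    (MultiplesVecW ![2, 3] (fun x : Fin 2 → ℤ => Bad δ (x 0) (x 1)) ∧
      DilatesVecW ![2, 3] (fun _ (x : Fin 2 → ℤ) => Bad δ (x 0) (x 1)) ∧
      FastDilatesVecW ![2, 3] (fun _ (x : Fin 2 → ℤ) => Bad δ (x 0) (x 1))) ∧
    ∀ A : ℤ, A ≠ 0 → NullAtMultiples (fun t : ℤ => Bad δ A t) ∧ NullAtDilates (fun _ (t : ℤ) => Bad δ A t) := by
  refine ⟨?_, fun A hA => ?_⟩
  · have h2 := null_allW (one_le_pair (by norm_num) (by norm_num))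
      (P := fun _ (x : Fin 2 → ℤ) => Bad δ (x 0) (x 1)) fun _ => bad_null2 δ h₀ h
    exact ⟨h2.1 0, h2.2⟩
  · have h1 := null_both (P := fun _ (t : ℤ) => Bad δ A t) fun _ => bad_null1 A hA δ h₀ h
    exact ⟨h1.1 0, h1.2⟩

end Pool.Agent.Results.MP_f5d5f4_nt.CurvesNearRealCurves
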