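import Pool.Agent.TH894.NI3
import Pool.Agent.TH894.NI5

/-!
# Elliptic curves whose coefficients are obtained by few changes of digits: every congruent curve has bad reduction at a large prime

Let `b ≥ 2` be a base. Take two numbers `N 0`, `N 1` with `K 0`, `K 1` digits in base `b`, prescribe for every position a new
digit, choose `r i` of the `K i ≥ 2 r i` positions and put the new digits there. This gives the numbers `s` and `t`. Let
`E : y² = x³ + (u s + u₀) x + (v t + v₀)` with arbitrary integers `u, v ≠ 0`, `u₀`, `v₀`, `|u|, |v| ≤ y`. The numbers of the changed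
digits may be as small as a constant times `log y`; they may be constant while the numbers `K i` of all digits tend to infinity, so
that the curves `E` form an extremely sparse set.

1. For all but a proportion `ε` of the choices of the positions `E` is an elliptic curve, and there is ONE prime `q > y` such that
   every elliptic curve `E'` over `ℚ` with `E'[n]` isomorphic to `E[n]` for some `n ≥ 2` has bad reduction at `q`. The curve `E'` is
   arbitrary: its height and its conductor are not bounded, and `n` is not bounded. In particular `E` has no congruence, modulo any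
   `n ≥ 2`, with any of the curves which have good reduction at all primes greater than `y`.
2. For all but a proportion `ε` of the pairs of choices of positions for TWO such families (with different bases, numbers and
   coefficients; they may be equal) the two curves are elliptic curves which are not congruent modulo any `n ≥ 2`.
3. The statement 1 holds for the fibres `E_t : y² = x³ + A(t)x + B(t)` of a one-parameter family with an `I₁` fibre (`4A³ + 27B²` has
   an irreducible factor of multiplicity one) at the integers `t` obtained by changing `r` digits of `N`.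

Here `y` may be as large as `exp (c r)` with a constant `c > 0` which depends only on `b` and `ε` (and, in 3, on the family).

Proof. A prime `q ≥ 5` which divides `4A³ + 27B²` exactly once has the property in 1, by the ramification theorems of the starting
library (`W275.FM`, `W275.FML`, `TH4.FZ`). Such a prime `q > y` is found for almost all choices by Mertens' theorem and the second
moment over the choices of the positions (`TH894.NI1` - `NI5`).
-/

set_option autoImplicit false

namespace Pool.Agent.Results.MP_f5d5f4_nt.FewDigitCoefficients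

open Finset Polynomial
open scoped Classical

/-- The curve `y² = x³ + Ax + B` over `ℚ`. -/
def curve (A B : ℤ) : WeierstrassCurve ℚ := ⟨0, 0, 0, A, B⟩

/-- The group of its points over the algebraic closure of `ℚ`. -/
abbrev Points (A B : ℤ) : Type := ((curve A B).baseChange (AlgebraicClosure ℚ)).toAffine.Point

/-- The action of an automorphism `σ` of the algebraic closure on the points. -/
noncomputable def galois (A B : ℤ) (σ : AlgebraicClosure ℚ ≃ₐ[ℚ] AlgebraicClosure ℚ) :
    Points A B →+ Points A B :=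
  WeierstrassCurve.Affine.Point.map
    (σ : AlgebraicClosure ℚ →ₐ[ℚ] AlgebraicClosure ℚ)

/-- The `n`-torsion of `y² = x³ + Ax + B` and that of `y² = x³ + A'x + B'` are isomorphic as Galois
modules: some map between the groups of points restricts to a bijective additive map of the
`n`-torsion which commutes with the Galois group. -/
def Congruent (n : ℕ) (A B A' B' : ℤ) : Prop :=
  ∃ f : Points A B → Points A' B', (∀ P Q, n • P = 0 → n • Q = 0 → f (P + Q) = f P + f Q) ∧
    Set.BijOn f {P | n • P = 0} {Q | n • Q = 0} ∧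
    ∀ (σ : AlgebraicClosure ℚ ≃ₐ[ℚ] AlgebraicClosure ℚ) (P : Points A B), n • P = 0 →
      f (galois A B σ P) = galois A' B' σ (f P)

/-- The discriminant, up to the factor `-16`. -/
def disc (A B : ℤ) : ℤ := 4 * A ^ 3 + 27 * B ^ 2

/-- The elliptic curve `y² = x³ + Ax + B` has bad reduction at the prime `q ≥ 5`: `q` divides the discriminants of all its integral
models `y² = x³ + u⁴Ax + u⁶B`, `u ∈ ℚ`, `u ≠ 0`. -/
def BadAt (q : ℕ) (A B : ℤ) : Prop :=
  5 ≤ q ∧ ∀ A' B' : ℤ, (∃ u : ℚ, u ≠ 0 ∧ (A' : ℚ) = u ^ 4 * A ∧ (B' : ℚ) = u ^ 6 * B) → (q : ℤ) ∣ disc A' B'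

/-- `E : y² = x³ + Ax + B` is an elliptic curve, and there is a prime `q > y` at which ALL the elliptic curves `E'` over `ℚ` with
`E'[n]` isomorphic to `E[n]` for some `n ≥ 2` have bad reduction. -/
def LargePrimeForced (y : ℕ) (A B : ℤ) : Prop :=
  disc A B ≠ 0 ∧ ∃ q : ℕ, q.Prime ∧ y < q ∧
    ∀ A' B' : ℤ, disc A' B' ≠ 0 → ∀ n : ℕ, 2 ≤ n → Congruent n A B A' B' → BadAt q A' B'

/-- The two curves are elliptic curves, and they are not congruent modulo any `n ≥ 2`. -/
def NotCongruent (A B A' B' : ℤ) : Prop :=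
  disc A B ≠ 0 ∧ disc A' B' ≠ 0 ∧ ∀ n : ℕ, 2 ≤ n → ¬ Congruent n A B A' B'

/-- The digit number `i` (counted from the right, beginning with `0`) of `n` in base `b`. -/
def digit (b i n : ℕ) : ℕ := n / b ^ i % b

/-- The number which arises from the number `N` with at most `K` digits in base `b`, if for every `i ∈ S`
the digit number `i` is replaced by `f i`. -/
def change (b K N : ℕ) (f : ℕ → ℕ) (S : Finset ℕ) : ℕ :=
  ∑ i ∈ range K, (if i ∈ S then f i else digit b i N) * b ^ i

/-- Numbers `N 0`, `N 1` with at most `K 0`, `K 1` digits in base `b`, new digits `f 0`, `f 1` for all positions, different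
from the digits of `N 0`, `N 1`, and numbers `r 0`, `r 1` of the positions to be chosen, at least `(log y) / c` and at most
half of all the positions. -/
structure Data (b : ℕ) (c : ℝ) (y : ℕ) where
  /-- the numbers of the positions to be chosen -/
  r : Fin 2 → ℕ
  /-- the numbers of all positions -/
  K : Fin 2 → ℕ
  /-- the original numbers -/
  N : Fin 2 → ℕ
  /-- the new digits -/
  f : Fin 2 → ℕ → ℕ
  /-- the factors -/
  u : Fin 2 → ℤ
  /-- the constant terms -/
  u₀ : Fin 2 → ℤ
  le_K : ∀ i, 2 * r i ≤ K i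
  log_le : ∀ i, Real.log y ≤ c * r i
  lt_pow : ∀ i, N i < b ^ K i
  new : ∀ i j, f i j < b ∧ f i j ≠ digit b j (N i)
  ne_zero : ∀ i, u i ≠ 0
  abs_le : ∀ i, |u i| ≤ y

namespace Data

variable {b y : ℕ} {c : ℝ} (D : Data b c y)

/-- The pairs of sets of positions which can be chosen. -/
def choices : Finset (Fin 2 → Finset ℕ) :=
  Fintype.piFinset fun i => powersetCard (D.r i) (range (D.K i))

/-- The coefficients of the curve `y² = x³ + (coef 0) x + coef 1` which belongs to the chosen sets of positions. -/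
def coef (S : Fin 2 → Finset ℕ) (i : Fin 2) : ℤ :=
  D.u i * (change b (D.K i) (D.N i) (D.f i) (S i) : ℕ) + D.u₀ i

lemma card_choices : (D.choices.card : ℝ) = ∏ i, ((D.K i).choose (D.r i) : ℝ) := by
  rw [choices, Fintype.card_piFinset, Nat.cast_prod]
  exact prod_congr rfl fun i _ => by rw [card_powersetCard, card_range]

end Data

lemma forced_of_rigid {y : ℕ} {A B : ℤ} (h : Pool.Agent.TH894.NI.Rigid y A B) : LargePrimeForced y A B := by
  obtain ⟨h0, q, hq, hy, h⟩ := h
  exact ⟨h0, q, hq, hy, fun A' B' hd n hn hC => (h A' B' hd n hn hC).2⟩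

/-- **Congruences of elliptic curves whose coefficients are obtained by few changes of digits.** -/
theorem result :
    (∀ b : ℕ, 2 ≤ b → ∀ ε : ℝ, 0 < ε → ∃ c : ℝ, 0 < c ∧ ∃ y₀ : ℕ, ∀ y : ℕ, y₀ ≤ y → ∀ D : Data b c y,
      ((D.choices.filter fun S => ¬ LargePrimeForced y (D.coef S 0) (D.coef S 1)).card : ℝ) ≤
        ε * D.choices.card) ∧
    (∀ b b' : ℕ, 2 ≤ b → 2 ≤ b' → ∀ ε : ℝ, 0 < ε → ∃ c : ℝ, 0 < c ∧ ∃ y₀ : ℕ, ∀ y : ℕ, y₀ ≤ y →
      ∀ (D : Data b c y) (D' : Data b' c y),
      (((D.choices ×ˢ D'.choices).filter fun S =>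
        ¬ NotCongruent (D.coef S.1 0) (D.coef S.1 1) (D'.coef S.2 0) (D'.coef S.2 1)).card : ℝ) ≤
        ε * (D.choices.card * D'.choices.card)) ∧
    ∀ b : ℕ, 2 ≤ b → ∀ A B P : ℤ[X], Irreducible P → 0 < P.natDegree → P ∣ 4 * A ^ 3 + 27 * B ^ 2 →
      ¬ P ^ 2 ∣ 4 * A ^ 3 + 27 * B ^ 2 → ∀ ε : ℝ, 0 < ε → ∃ c : ℝ, 0 < c ∧ ∃ y₀ : ℕ, ∀ y : ℕ, y₀ ≤ y →
      ∀ r K : ℕ, 2 * r ≤ K → Real.log y ≤ c * r → ∀ N : ℕ, N < b ^ K →
      ∀ f : ℕ → ℕ, (∀ j, f j < b ∧ f j ≠ digit b j N) →
      (((powersetCard r (range K)).filter fun S =>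
        ¬ LargePrimeForced y (A.eval (change b K N f S : ℤ)) (B.eval (change b K N f S : ℤ))).card : ℝ) ≤
        ε * K.choose r := by
  refine ⟨fun b hb ε hε => ?_, fun b b' hb hb' ε hε => ?_, fun b hb A B P hP hd hPD hP2 ε hε => ?_⟩
  · obtain ⟨c, hc, y₀, h⟩ := Pool.Agent.TH894.NI.rigid_few4 b hb ε hε
    refine ⟨c, hc, y₀, fun y hy D => ?_⟩
    rw [D.card_choices]
    refine le_trans (Nat.cast_le.2 (card_le_card ?_)) (h y hy (D.u 0) (D.u 1) (D.u₀ 0) (D.u₀ 1)
      (D.ne_zero 0) (D.ne_zero 1) (D.abs_le 0) (D.abs_le 1) D.r D.K D.le_K D.log_le D.N D.lt_pow D.f D.new)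
    intro S hS
    rw [mem_filter] at hS ⊢
    exact ⟨hS.1, fun hR => hS.2 (forced_of_rigid hR)⟩
  · obtain ⟨c, hc, y₀, h⟩ := Pool.Agent.TH894.NI.pairs_few4 b b' hb hb' ε hε
    refine ⟨c, hc, y₀, fun y hy D D' => ?_⟩
    rw [D.card_choices, D'.card_choices]
    refine le_trans (Nat.cast_le.2 (card_le_card ?_)) (h y hy (D.u 0) (D.u 1) (D.u₀ 0) (D.u₀ 1)
      (D'.u 0) (D'.u 1) (D'.u₀ 0) (D'.u₀ 1)
      (D.ne_zero 0) (D.ne_zero 1) (D.abs_le 0) (D.abs_le 1)
      (D'.ne_zero 0) (D'.ne_zero 1) (D'.abs_le 0) (D'.abs_le 1)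
      D.r D.K D.le_K D.log_le D.N D.lt_pow D.f D.new D'.r D'.K D'.le_K D'.log_le D'.N D'.lt_pow D'.f D'.new)
    intro S hS
    rw [mem_filter] at hS ⊢
    exact ⟨hS.1, fun hR => hS.2 ⟨hR.1, hR.2.1, fun n hn hC => hR.2.2 n hn hC⟩⟩
  · obtain ⟨c, hc, y₀, h⟩ := Pool.Agent.TH894.NI.rigid_family b hb A B P hP hd hPD hP2 ε hε
    refine ⟨c, hc, y₀, fun y hy r K hrK hr N hN f hf => ?_⟩
    refine le_trans (Nat.cast_le.2 (card_le_card ?_)) (h y hy r K hrK hr N hN f hf)
    intro S hS
    rw [mem_filter] at hS ⊢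
    exact ⟨hS.1, fun hR => hS.2 (forced_of_rigid hR)⟩

end Pool.Agent.Results.MP_f5d5f4_nt.FewDigitCoefficients
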