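import Pool.Agent.Y673.FM.Fam
import Pool.Agent.Q327.MF.Field

/-!
# MP_f5d5f4_nt: pairs of members of two families with the same `p`-division field, for all primes `p ≥ N`

Let `K` be a number field, `F`, `G` coprime polynomials in one variable over `K` such that the function
`j = F / G` has at least two different poles on the projective line over `K̄`, and let `j' = F' / G'` be any
rational function over `K` in `s` variables (it can be constant, it can be `j`, and it can have one pole or
none).  Let `ε > 0`.  There are `N` and `C` such that for every `X ≥ 1` and EVERY finite set `W` of points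
of `K ^ s` whose coordinates have height at most `X`: among the pairs `(t, w)`, `t ∈ K` of height at most
`X` (there are about `X²` such `t`) and `w ∈ W`, at most `C X ^ ε |W|` are such that for some elliptic curves
`E`, `E'` over `K` with invariants `j(t)`, `j'(w)` and some prime `p ≥ N` the fields `K(E[p])` and `K(E'[p])`
are equal; in particular this holds if `E[p]` and `E'[p]` are isomorphic.  There is no upper bound for `p`.

For `j = j'`, for example the invariant of the family with full level two structure, and `W` the set of the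
elements of `K` of height at most `X`, these are `O(X ^ (2 + ε))` of about `X ^ 4` pairs; this is the best
possible up to `ε`, as the diagonal consists of about `X²` pairs.  So with few exceptions two members of the
family, or their twists, are not congruent modulo any prime `p ≥ N`.

The starting file `UniformInFamilies` gives the bound `C (X H(j(E'))) ^ ε` for one curve `E'`, uniformly in
`E'`; here it is combined with a bound for the heights of the values of `j'`.
-/

set_option autoImplicit false

open WeierstrassCurve NumberField Polynomial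
open scoped Classical

namespace Pool.Agent.Results.MP_f5d5f4_nt.PairsOfFamilies

section
variable {K : Type} [Field K]

/-- The curve `y² = x³ + Ax + B` over `K`. -/
def curve (A B : K) : WeierstrassCurve K := ⟨0, 0, 0, A, B⟩

/-- The group of its points over the algebraic closure of `K`. -/
abbrev Points (A B : K) : Type := ((curve A B).baseChange (AlgebraicClosure K)).toAffine.Point

/-- The action of a `K`-automorphism `σ` of the algebraic closure on the points. -/
noncomputable def galois (A B : K) (σ : AlgebraicClosure K ≃ₐ[K] AlgebraicClosure K) :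
    Points A B →+ Points A B :=
  WeierstrassCurve.Affine.Point.map (σ : AlgebraicClosure K →ₐ[K] AlgebraicClosure K)

/-- The curves `y² = x³ + Ax + B` and `y² = x³ + A'x + B'` have the same `p`-division field: an
automorphism fixes all points killed by `p` of the first if and only if it fixes all points killed by
`p` of the second.  This holds if there is an isomorphism (or only a bijective map) between the groups
of points killed by `p` which commutes with the Galois action. -/
def SameDivisionField (p : ℕ) (A B A' B' : K) : Prop :=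
  ∀ σ : AlgebraicClosure K ≃ₐ[K] AlgebraicClosure K,
    (∀ P : Points A B, p • P = 0 → galois A B σ P = P) ↔
      (∀ P : Points A' B', p • P = 0 → galois A' B' σ P = P)

/-- The invariant of `y² = x³ + Ax + B`. -/
noncomputable def jInvariant (A B : K) : K := 6912 * A ^ 3 / (4 * A ^ 3 + 27 * B ^ 2)

/-- Some elliptic curves over `K` with invariants `j` and `j'` have the same `p`-division field for some
prime `p ≥ N`. -/
def Companions (N : ℕ) (j j' : K) : Prop :=
  ∃ A B A' B' : K, 4 * A ^ 3 + 27 * B ^ 2 ≠ 0 ∧ 4 * A' ^ 3 + 27 * B' ^ 2 ≠ 0 ∧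
    jInvariant A B = j ∧ jInvariant A' B' = j' ∧
    ∃ p : ℕ, p.Prime ∧ N ≤ p ∧ SameDivisionField p A B A' B'

/-- `F/G` has at least two different poles on the projective line over the algebraic closure. -/
def TwoPoles (F G : K[X]) : Prop :=
  (∃ x y : AlgebraicClosure K, x ≠ y ∧ aeval x G = 0 ∧ aeval y G = 0) ∨
    (0 < G.natDegree ∧ G.natDegree < F.natDegree)

end

/-- one curve -/
theorem one (K : Type) [Field K] [NumberField K] (F G : K[X]) (hFG : IsCoprime F G)
    (hG : G ≠ 0) (hpoles : TwoPoles F G) (ε : ℝ) (hε : 0 < ε) :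
    ∃ (N : ℕ) (C : ℝ), ∀ j₀ : K, ∀ X : ℝ, 1 ≤ X → ∀ T : Finset K,
      (∀ t ∈ T, Height.mulHeight₁ t ≤ X ∧ G.eval t ≠ 0 ∧ Companions N (F.eval t / G.eval t) j₀) →
        (T.card : ℝ) ≤ C * (X * Height.mulHeight₁ j₀) ^ ε := by
  set n : ℕ := Module.finrank ℚ K with hn
  have key : ∀ (N : ℕ) (j j₀ : K), 13 + 8 * n ≤ N → Companions N j j₀ →
      Pool.Agent.Y673.DK.PJ K 6 j₀ N j := by
    rintro N j j₀ hN ⟨A, B, A₀, B₀, h1, h0, rfl, rfl, p, h3, h4, h5⟩
    exact Pool.Agent.Y673.FM.pj_of (n := n) le_rfl hN A B A₀ B₀ h1 h0 h3 h4 h5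
  have hmap : ∀ P : K[X], P.map (algebraMap K K) = P := by
    intro P
    rw [Algebra.algebraMap_self, Polynomial.map_id]
  rcases hpoles with ⟨x, y, hxy, hx, hy⟩ | ⟨h1, h2⟩
  · obtain ⟨N, C, -, h⟩ := Pool.Agent.Y673.DK.rational_twoJ K 6 (by norm_num) F G hFG hG x y hxy
      hx hy n hε
    refine ⟨max N (13 + 8 * n), C, fun j₀ X hX T hT => ?_⟩
    refine h K le_rfl j₀ X hX T fun t ht => ?_
    obtain ⟨h3, h4, h5⟩ := hT t ht
    obtain ⟨p, h6, h7, h8⟩ := key _ _ _ (le_max_right _ _) h5
    rw [hmap, hmap]
    exact ⟨h3, h4, p, h6, (le_max_left _ _).trans h7, h8⟩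
  · obtain ⟨N, C, -, h⟩ := Pool.Agent.Y673.DK.rational_infJ K 6 (by norm_num) F G hFG h1 h2 n hε
    refine ⟨max N (13 + 8 * n), C, fun j₀ X hX T hT => ?_⟩
    refine h K le_rfl j₀ X hX T fun t ht => ?_
    obtain ⟨h3, h4, h5⟩ := hT t ht
    obtain ⟨p, h6, h7, h8⟩ := key _ _ _ (le_max_right _ _) h5
    rw [hmap, hmap]
    exact ⟨h3, h4, p, h6, (le_max_left _ _).trans h7, h8⟩

/-- **Few pairs of members of two families have a common division field of large prime level.** -/
theorem result (K : Type) [Field K] [NumberField K] (F G : K[X]) (hFG : IsCoprime F G)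
    (hG : G ≠ 0) (hpoles : TwoPoles F G) (s : ℕ) (F' G' : MvPolynomial (Fin s) K) (ε : ℝ)
    (hε : 0 < ε) : ∃ (N : ℕ) (C : ℝ), ∀ X : ℝ, 1 ≤ X → ∀ W : Finset (Fin s → K),
      (∀ w ∈ W, ∀ i, Height.mulHeight₁ (w i) ≤ X) →
      ({x : K × (Fin s → K) | Height.mulHeight₁ x.1 ≤ X ∧ x.2 ∈ W ∧ G.eval x.1 ≠ 0 ∧
          MvPolynomial.eval x.2 G' ≠ 0 ∧ Companions N (F.eval x.1 / G.eval x.1)
            (MvPolynomial.eval x.2 F' / MvPolynomial.eval x.2 G')}).Finite ∧
      ({x : K × (Fin s → K) | Height.mulHeight₁ x.1 ≤ X ∧ x.2 ∈ W ∧ G.eval x.1 ≠ 0 ∧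
          MvPolynomial.eval x.2 G' ≠ 0 ∧ Companions N (F.eval x.1 / G.eval x.1)
            (MvPolynomial.eval x.2 F' / MvPolynomial.eval x.2 G')}.ncard : ℝ) ≤
        C * X ^ ε * W.card := by
  set D : ℕ := max F'.totalDegree G'.totalDegree with hD
  obtain ⟨A, hA, hval⟩ := Pool.Agent.Q327.MF.height_quot F' G' (le_max_left _ _ : _ ≤ D)
    (le_max_right _ _ : _ ≤ D)
  set k : ℕ := 2 * ((D + 1) ^ s * (s * D)) with hk
  have hk0 : (0 : ℝ) < (k : ℝ) + 1 := by positivity
  set ε' : ℝ := ε / ((k : ℝ) + 1) with hε'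
  have hε'0 : 0 < ε' := div_pos hε hk0
  have hA0 : 0 ≤ A := zero_le_one.trans hA
  obtain ⟨N, C, h⟩ := one K F G hFG hG hpoles ε' hε'0
  have hC0 : 0 ≤ C := by
    have h1 := h 0 1 le_rfl ∅ (fun t ht => absurd ht (Finset.notMem_empty t))
    rw [Height.mulHeight₁_zero, mul_one, Real.one_rpow, mul_one, Finset.card_empty,
      Nat.cast_zero] at h1
    exact h1
  refine ⟨N, C * A ^ ε', fun X hX W hW => ?_⟩
  have hX0 : 0 ≤ X := zero_le_one.trans hX
  refine Pool.Agent.Y673.Cnt.ncard_le_of _ _ fun E hE => ?_
  have hone : ∀ w ∈ W, (((E.filter fun x => x.2 = w).image Prod.fst).card : ℝ) ≤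
      C * A ^ ε' * X ^ ε := by
    intro w hw
    have h1 := h (MvPolynomial.eval w F' / MvPolynomial.eval w G') X hX
      ((E.filter fun x => x.2 = w).image Prod.fst) (by
        intro t ht
        obtain ⟨x, hx, rfl⟩ := Finset.mem_image.1 ht
        obtain ⟨hx1, hx2⟩ := Finset.mem_filter.1 hx
        obtain ⟨h2, -, h3, -, h4⟩ := hE (Finset.mem_coe.2 hx1)
        rw [hx2] at h4
        exact ⟨h2, h3, h4⟩)
    refine h1.trans ?_
    rw [mul_assoc]
    apply mul_le_mul_of_nonneg_left _ hC0
    have h2 := hval X hX w (hW w hw)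
    have hbase : X * Height.mulHeight₁ (MvPolynomial.eval w F' / MvPolynomial.eval w G') ≤
        A * X ^ (k + 1) := by
      calc X * Height.mulHeight₁ (MvPolynomial.eval w F' / MvPolynomial.eval w G')
          ≤ X * (A * X ^ k) := mul_le_mul_of_nonneg_left h2 hX0
        _ = A * X ^ (k + 1) := by ring
    calc (X * Height.mulHeight₁ (MvPolynomial.eval w F' / MvPolynomial.eval w G')) ^ ε'
        ≤ (A * X ^ (k + 1)) ^ ε' :=
          Real.rpow_le_rpow (mul_nonneg hX0 (Height.mulHeight₁_nonneg _)) hbase hε'0.le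
      _ = A ^ ε' * X ^ ε := by
          rw [Real.mul_rpow hA0 (pow_nonneg hX0 _), ← Real.rpow_natCast, ← Real.rpow_mul hX0]
          congr 2
          rw [hε']
          push_cast
          field_simp
  have hcard : E.card ≤ ∑ w ∈ W, ((E.filter fun x => x.2 = w).image Prod.fst).card := by
    have h1 : E ⊆ W.biUnion fun w => (((E.filter fun x => x.2 = w).image Prod.fst).image
        fun t => (t, w)) := by
      intro x hx
      have h2 := (hE (Finset.mem_coe.2 hx)).2.1
      exact Finset.mem_biUnion.2 ⟨x.2, h2, Finset.mem_image.2 ⟨x.1, Finset.mem_image.2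
        ⟨x, Finset.mem_filter.2 ⟨hx, rfl⟩, rfl⟩, rfl⟩⟩
    exact (Finset.card_le_card h1).trans (Finset.card_biUnion_le.trans
      (Finset.sum_le_sum fun w _ => Finset.card_image_le))
  calc (E.card : ℝ) ≤ ∑ w ∈ W, (((E.filter fun x => x.2 = w).image Prod.fst).card : ℝ) := by
        exact_mod_cast hcard
    _ ≤ ∑ _w ∈ W, C * A ^ ε' * X ^ ε := Finset.sum_le_sum hone
    _ = C * A ^ ε' * X ^ ε * W.card := by rw [Finset.sum_const, nsmul_eq_mul, mul_comm]

end Pool.Agent.Results.MP_f5d5f4_nt.PairsOfFamilies
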